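import Pool.Agent.Helper47.Dist.Final

/-!
Nonexistence of minimisers of the `L^p` distortion between multiply connected planar domains.
-/

set_option autoImplicit false

namespace Pool.Agent.Results.MP_084a52_an.NoMinimizer

open Pool.Agent.Helper47.Dist

/-- There are bounded multiply connected planar domains `Ω`, `Ω'` such that for every `p > 1` some
`g` in the class `H(Ω, Ω')` of homeomorphisms of finite distortion has `E_p(g) < ∞`, but no
`f ∈ H(Ω, Ω')` minimises `E_p` over `H(Ω, Ω')`. -/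
theorem result : ∃ Ω Ω' : Set ℂ,
    (IsMultiplyConnectedDomain Ω ∧ Bornology.IsBounded Ω) ∧
    (IsMultiplyConnectedDomain Ω' ∧ Bornology.IsBounded Ω') ∧
    ∀ p : ℝ, 1 < p →
      (∃ g Dg, InClass Ω Ω' g Dg ∧ energy p Ω Dg ≠ ⊤) ∧
      ¬ ∃ f Df, InClass Ω Ω' f Df ∧
        ∀ h Dh, InClass Ω Ω' h Dh → energy p Ω Df ≤ energy p Ω Dh :=
  ⟨Om, Om', ⟨isMultiplyConnectedDomain_Om, Metric.isBounded_ball.subset Om_subset⟩,
    ⟨isMultiplyConnectedDomain_Om', Metric.isBounded_ball.subset Om'_subset⟩,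
    fun _ hp => ⟨exists_finite_energy (by linarith),
      fun ⟨_, _, hf, hmin⟩ => not_minimizer (by linarith) hf hmin⟩⟩

end Pool.Agent.Results.MP_084a52_an.NoMinimizer
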